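import Pool.Agent.R929.DH.Iso

/-!
# Semipositive classes and their forms
-/

open scoped ComplexConjugate Topology
open Module

namespace Pool.Agent.R929.DK

open Pool.Agent.W539.DI Pool.Agent.R929.DH

variable {n : ℕ}

/-- The real class `L` of type `(1, 1)` has the cohomological properties of a class which is
represented by a closed semipositive `(1, 1)`-form (for instance the pull-back of an ample class
under a morphism, or the class of a semiample line bundle):

* `nef`: `L + t ω` is a Kähler class for all `t > 0`;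
* `holo`: for a holomorphic `p`-form `x` (a class of type `(p, 0)`) and `p + i + j = n` the
  integral of `i^{p^2} x ∧ conj(x) ∧ L^i ∧ ω^j` is a nonnegative real number, which vanishes only if
  `L^i x = 0` (the integrand is pointwise nonnegative, and vanishes only where `L^i ∧ x` does). -/
structure Semipositive (X : KRing n) (L : X.R) : Prop where
  mem : L ∈ X.H (1, 1)
  real : X.bar L = L
  nef : ∀ t : ℝ, 0 < t → IsKahler X (L + (t : ℂ) • X.ω)
  holo : ∀ (p : ℤ) (i j : ℕ), p + i + j = n → ∀ x ∈ X.H (p, 0), ∃ r : ℝ, 0 ≤ r ∧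
    Complex.I ^ p * (-1 : ℂ) ^ (p * (p - 1) / 2) *
      X.tr (L ^ i * (X.ω ^ j * (x * X.bar x))) = (r : ℂ) ∧ (r = 0 → L ^ i * x = 0)

variable (X : KRing n)

/-- The form `∫ x^∨ m bar y`. -/
noncomputable def gf (m x y : X.R) : ℂ := X.tr (X.dual x * (m * X.bar y))

/-- Its real part, symmetrised. -/
noncomputable def bg (m x y : X.R) : ℝ := (gf X m x y).re + (gf X m y x).re

variable {X}

theorem bf_eq (w : X.R) (k : ℕ) (x y : X.R) : bf X w k x y = bg X (w ^ k) x y := rfl

theorem gf_add (m m' x y : X.R) : gf X (m + m') x y = gf X m x y + gf X m' x y := by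
  unfold gf
  rw [add_mul, mul_add, map_add]

theorem gf_smul (c : ℂ) (m x y : X.R) : gf X (c • m) x y = c * gf X m x y := by
  unfold gf
  rw [smul_mul_assoc, mul_smul_comm, map_smul, smul_eq_mul]

theorem gf_zero (x y : X.R) : gf X 0 x y = 0 := by
  unfold gf
  rw [zero_mul, mul_zero, map_zero]

theorem gf_add_left (m x y z : X.R) : gf X m (x + y) z = gf X m x z + gf X m y z := by
  unfold gf
  rw [map_add, add_mul, map_add]

theorem gf_add_right (m x y z : X.R) : gf X m x (y + z) = gf X m x y + gf X m x z := by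
  unfold gf
  rw [map_add, mul_add, mul_add, map_add]

theorem gf_smul_left (m : X.R) (a : ℂ) (x z : X.R) : gf X m (a • x) z = a * gf X m x z := by
  unfold gf
  rw [map_smul, smul_mul_assoc, map_smul, smul_eq_mul]

theorem gf_smul_right (m : X.R) (a : ℂ) (x z : X.R) :
    gf X m x (a • z) = conj a * gf X m x z := by
  unfold gf
  rw [LinearMap.map_smulₛₗ, mul_smul_comm, mul_smul_comm, map_smul, smul_eq_mul]

theorem isHermg (e : ℝ) (m : X.R) : IsHerm (fun x y : X.R => e * bg X m x y) where
  add x y z := by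
    simp only [bg, gf_add_left, gf_add_right, Complex.add_re]
    ring
  smul r x z := by
    simp only [bg, gf_smul_left, gf_smul_right, Complex.conj_ofReal, Complex.re_ofReal_mul]
    ring
  symm x y := by
    simp only [bg]
    ring
  inv x y := by
    have h1 : ∀ x y : X.R, gf X m (Complex.I • x) (Complex.I • y) = gf X m x y := by
      intro x y
      rw [gf_smul_left, gf_smul_right, ← mul_assoc, Complex.conj_I, mul_neg, Complex.I_mul_I]
      ring
    simp only [bg, h1]

theorem bg_zero (x y : X.R) : bg X 0 x y = 0 := by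
  unfold bg
  rw [gf_zero, gf_zero]
  simp

theorem bg_add (m m' x y : X.R) : bg X (m + m') x y = bg X m x y + bg X m' x y := by
  unfold bg
  rw [gf_add, gf_add, Complex.add_re, Complex.add_re]
  ring

theorem bg_smul (r : ℝ) (m x y : X.R) : bg X ((r : ℂ) • m) x y = r * bg X m x y := by
  unfold bg
  rw [gf_smul, gf_smul, Complex.re_ofReal_mul, Complex.re_ofReal_mul]
  ring

theorem bg_sum {ι : Type*} (s : Finset ι) (m : ι → X.R) (x y : X.R) :
    bg X (∑ i ∈ s, m i) x y = ∑ i ∈ s, bg X (m i) x y := by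
  classical
  induction s using Finset.induction_on with
  | empty => simp [bg_zero]
  | insert a s ha ih => rw [Finset.sum_insert ha, Finset.sum_insert ha, bg_add, ih]

/-- The expansion of the forms of `L + t ω`. -/
theorem pow_expand (L : X.R) (k : ℕ) (t : ℝ) :
    (L + (t : ℂ) • X.ω) ^ k = ∑ j ∈ Finset.range (k + 1),
      (((k.choose j : ℝ) * t ^ j : ℝ) : ℂ) • (L ^ (k - j) * X.ω ^ j) := by
  have hc : Commute ((t : ℂ) • X.ω) L := by
    show (t : ℂ) • X.ω * L = L * ((t : ℂ) • X.ω)
    rw [smul_mul_assoc, mul_smul_comm, X.central X.ω_mem]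
  rw [add_comm, hc.add_pow]
  refine Finset.sum_congr rfl fun j _ => ?_
  rw [smul_pow, smul_mul_assoc, ← nsmul_eq_mul', ← Nat.cast_smul_eq_nsmul ℂ, smul_smul]
  push_cast
  congr 1
  exact (pow_central X.ω_mem j (L ^ (k - j)))

theorem bf_expand (L : X.R) (k : ℕ) (t : ℝ) (x y : X.R) :
    bf X (L + (t : ℂ) • X.ω) k x y = ∑ j ∈ Finset.range (k + 1),
      (k.choose j : ℝ) * t ^ j * bg X (L ^ (k - j) * X.ω ^ j) x y := by
  rw [bf_eq, pow_expand, bg_sum]
  refine Finset.sum_congr rfl fun j _ => ?_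
  rw [bg_smul]

/-- The form on multiples of `ω`. -/
theorem gf_omega (m x y : X.R) :
    gf X m (X.ω * x) (X.ω * y) = -gf X (m * X.ω ^ 2) x y := by
  unfold gf
  rw [dual_mul X.ω_mem, X.bar_mul, X.ω_bar, neg_mul, map_neg, X.central X.ω_mem (X.dual x)]
  congr 2
  rw [mul_assoc, ← mul_assoc X.ω m, X.central X.ω_mem m, pow_two]
  simp only [mul_assoc]

theorem bg_omega (m x y : X.R) :
    bg X m (X.ω * x) (X.ω * y) = -bg X (m * X.ω ^ 2) x y := by
  unfold bg
  rw [gf_omega, gf_omega, Complex.neg_re, Complex.neg_re]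
  ring

theorem bg_self (m x : X.R) : bg X m x x = 2 * (gf X m x x).re := by
  unfold bg
  ring

/-- The semipositivity in terms of the forms. -/
theorem Semipositive.nonneg {L : X.R} (h : Semipositive X L) {p : ℤ} {i j : ℕ}
    (hij : p + i + j = n) {x : X.R} (hx : x ∈ X.H (p, 0)) :
    0 ≤ sg p 0 * bg X (L ^ i * X.ω ^ j) x x ∧
      (sg p 0 * bg X (L ^ i * X.ω ^ j) x x = 0 → L ^ i * x = 0) := by
  obtain ⟨r, hr, he, h0⟩ := h.holo p i j hij x hx
  have hI := sg_I p 0
  simp only [add_zero, sub_zero] at hI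
  have e1 : (sg p 0 : ℂ) * gf X (L ^ i * X.ω ^ j) x x = (r : ℂ) := by
    rw [← he, ← hI]
    unfold gf
    rw [X.dual_of hx, smul_mul_assoc, map_smul, smul_eq_mul, add_zero, ← mul_assoc]
    congr 2
    rw [mul_assoc (L ^ i), ← mul_assoc x, ← pow_central h.mem, mul_assoc, ← mul_assoc x,
      ← pow_central X.ω_mem]
    simp only [mul_assoc]
  have e2 : sg p 0 * bg X (L ^ i * X.ω ^ j) x x = 2 * r := by
    have := congrArg Complex.re e1
    rw [Complex.re_ofReal_mul, Complex.ofReal_re] at this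
    rw [bg_self]
    linarith
  rw [e2]
  exact ⟨by linarith, fun h => h0 (by linarith)⟩

/-- The mixed terms vanish if `L ^ i x = 0`. -/
theorem bg_mixed {L : X.R} (hm : L ∈ X.H (1, 1)) (hb : X.bar L = L) {p q : ℤ} {i : ℕ} (m : X.R)
    {x : X.R} (hx : x ∈ X.H (p, q)) (h0 : L ^ i * x = 0) (y : X.R) :
    bg X (L ^ i * m) (X.ω * x) y = 0 := by
  have h1 : L ^ i * X.dual x = 0 := by rw [X.dual_of hx, mul_smul_comm, h0, smul_zero]
  have h2 : L ^ i * X.bar x = 0 := by rw [← bar_pow hb, h0, map_zero]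
  have e1 : gf X (L ^ i * m) (X.ω * x) y = 0 := by
    unfold gf
    rw [dual_mul X.ω_mem, neg_mul, mul_assoc, mul_assoc (L ^ i), ← mul_assoc (X.dual x),
      ← pow_central hm, h1, zero_mul, mul_zero, neg_zero, map_zero]
  have e2 : gf X (L ^ i * m) y (X.ω * x) = 0 := by
    unfold gf
    rw [X.bar_mul, X.ω_bar, ← mul_assoc (L ^ i * m), pow_central hm, mul_assoc m,
      mul_assoc m, pow_central hm, mul_assoc X.ω, h2, mul_zero, mul_zero, mul_zero, map_zero]
  unfold bg
  rw [e1, e2]
  simp

end Pool.Agent.R929.DK
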