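import Pool.Agent.R929.DK.Rank

/-!
# Holomorphic forms of derived equivalent varieties
-/

open scoped ComplexConjugate Topology
open Module

namespace Pool.Agent.R929.DK

open Pool.Agent.W539.DI Pool.Agent.R929.DH

variable {n : ℕ} {X Y : KRing n} {Φ : FM X Y} {L : X.R} {L' : Y.R}

/-- The rank of the multiplication by `L ^ k` on the classes of type `(p, 0)`. -/
noncomputable def rank (X : KRing n) (L : X.R) (p : ℤ) (k : ℕ) : ℕ :=
  finrank ℂ (Submodule.map (LinearMap.mulLeft ℂ (L ^ k)) (X.H (p, 0)))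

/-- The nullity of the multiplication by `L ^ k` on the classes of type `(p, 0)`. -/
noncomputable def nullity (X : KRing n) (L : X.R) (p : ℤ) (k : ℕ) : ℕ :=
  finrank ℂ (X.H (p, 0) ⊓ LinearMap.ker (LinearMap.mulLeft ℂ (L ^ k)) : Submodule ℂ X.R)

theorem rank_add_nullity (X : KRing n) (L : X.R) (p : ℤ) (k : ℕ) :
    rank X L p k + nullity X L p k = X.h p 0 := by
  have h1 := LinearMap.finrank_range_add_finrank_ker
    ((LinearMap.mulLeft ℂ (L ^ k)).domRestrict (X.H (p, 0)))
  rw [LinearMap.range_domRestrict] at h1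
  have h2 : (LinearMap.ker ((LinearMap.mulLeft ℂ (L ^ k)).domRestrict (X.H (p, 0)))).map
      (X.H (p, 0)).subtype = X.H (p, 0) ⊓ LinearMap.ker (LinearMap.mulLeft ℂ (L ^ k)) := by
    ext x
    constructor
    · rintro ⟨x, hx, rfl⟩
      exact ⟨x.2, hx⟩
    · rintro ⟨hx, h0⟩
      exact ⟨⟨x, hx⟩, h0, rfl⟩
  unfold rank nullity
  rw [← h2, Submodule.finrank_map_subtype_eq]
  exact h1

theorem rank_invariant (hX : Semipositive X L) (hY : Semipositive Y L')
    (hc : Intertwines Φ X.c Y.c) (hΦ : Intertwines Φ L L') {p : ℤ} {k : ℕ}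
    (hk : p + k + 2 = n) : rank X L p k = rank Y L' p k := by
  have h1 := rank_add_nullity X L p k
  have h2 := rank_add_nullity Y L' p k
  by_cases hp : 0 ≤ p
  · have h3 : X.h p 0 + nullity Y L' p k = Y.h p 0 + nullity X L p k :=
      rank_eq hX hY hc hΦ hk hp
    omega
  · rw [X.h_neg (Or.inl (by omega))] at h1
    rw [Y.h_neg (Or.inl (by omega))] at h2
    omega

theorem holo_eq (hX : Semipositive X L) (hY : Semipositive Y L')
    (hc : Intertwines Φ X.c Y.c) (hΦ : Intertwines Φ L L')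
    (hN : ∀ (p : ℤ) (k : ℕ), p + k + 2 = n → nullity X L p k = nullity Y L' p k) (p : ℤ) :
    X.h p 0 = Y.h p 0 := by
  by_cases h1 : p < 0 ∨ (n : ℤ) < p
  · rw [X.h_zero (by omega), Y.h_zero (by omega)]
  by_cases h2 : p + 2 ≤ n
  · obtain ⟨k, hk⟩ := Int.eq_ofNat_of_zero_le (show 0 ≤ (n : ℤ) - 2 - p by omega)
    have hk' : p + k + 2 = n := by omega
    have h3 := rank_invariant hX hY hc hΦ hk'
    have h4 := hN p k hk'
    rw [← rank_add_nullity X L p k, ← rank_add_nullity Y L' p k, h3, h4]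
  by_cases h3 : p = n
  · have h4 := Φ.total_all p 0 {0} (by
      intro k hk
      rw [Finset.mem_singleton] at hk
      omega)
    simpa using h4
  · have h4 := Φ.total_all p 0 {0, 1} (by
      intro k hk
      rw [Finset.mem_insert, Finset.mem_singleton] at hk
      omega)
    rw [Finset.sum_pair (by norm_num), Finset.sum_pair (by norm_num)] at h4
    have h5 : ∀ Z : KRing n, Z.h (p + 1) (0 + 1) = Z.h p 0 := fun Z => by
      have := Z.h_symm (p := p) (q := 0) 1 (by push_cast; omega)
      rw [this]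
      rfl
    rw [h5 X, h5 Y, add_zero, add_zero] at h4
    omega

end Pool.Agent.R929.DK
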