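import Pool.Agent.R929.DK.Form

/-!
# The degenerate mixed Hodge-Riemann relation in type `(p + 1, 1)`
-/

open scoped ComplexConjugate Topology
open Module

namespace Pool.Agent.R929.DK

open Pool.Agent.W539.DI Pool.Agent.R929.DH

/-- A linear form which vanishes on the isotropic vectors of a semidefinite form is bounded by
it. -/
theorem exists_bound {V : Type*} [AddCommGroup V] [Module ℝ V] [FiniteDimensional ℝ V]
    (B : V →ₗ[ℝ] V →ₗ[ℝ] ℝ) (hs : ∀ x y, B x y = B y x) (hp : ∀ x, 0 ≤ B x x)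
    (γ : Module.Dual ℝ V) (hγ : ∀ x, B x x = 0 → γ x = 0) :
    ∃ D : ℝ, ∀ x, 2 * γ x - B x x ≤ D := by
  have h1 : γ ∈ (LinearMap.ker B).dualAnnihilator := by
    rw [Submodule.mem_dualAnnihilator]
    intro x hx
    rw [LinearMap.mem_ker] at hx
    exact hγ x (by rw [hx]; rfl)
  have h2 := LinearMap.range_dualMap_eq_dualAnnihilator_ker B
  rw [← h2] at h1
  obtain ⟨ξ, hξ⟩ := h1
  obtain ⟨v, hv⟩ := (Module.evalEquiv ℝ V).surjective ξ
  have h3 : ∀ x, γ x = B x v := by
    intro x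
    rw [← hξ, ← hv]
    rfl
  refine ⟨B v v, fun x => ?_⟩
  have h4 := hp (x - v)
  simp only [map_sub, LinearMap.sub_apply] at h4
  rw [hs v x] at h4
  rw [h3]
  linarith

variable {n : ℕ} {X : KRing n} {L : X.R}

theorem A_neg (X : KRing n) : ∀ (r : ℕ) (p q : ℤ), q < 0 → X.A r p q = 0 := by
  intro r
  induction r with
  | zero => intro p q _; rfl
  | succ r ih =>
    intro p q hq
    show (X.h p q : ℤ) - X.A r (p - 1) (q - 1) = 0
    rw [ih _ _ (by omega), X.h_neg (Or.inr hq)]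
    simp

/-- A bound for the mixed terms. -/
theorem mixed_bound (hL : Semipositive X L) {p : ℤ} {i j : ℕ} (hij : p + i + j + 2 = n)
    (y : X.R) : ∃ D : ℝ, ∀ x ∈ X.H (p, 0),
      2 * (sg p 0 * bg X (L ^ i * X.ω ^ j) (X.ω * x) y) -
        sg p 0 * bg X (L ^ i * X.ω ^ (j + 2)) x x ≤ D := by
  have hH := isHermg (X := X) (sg p 0) (L ^ i * X.ω ^ (j + 2))
  have hH' := isHermg (X := X) (sg p 0) (L ^ i * X.ω ^ j)
  let B : X.H (p, 0) →ₗ[ℝ] X.H (p, 0) →ₗ[ℝ] ℝ := (hH.restrict (X.H (p, 0))).toBilin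
  have hB : ∀ x y, B x y = sg p 0 * bg X (L ^ i * X.ω ^ (j + 2)) x y := fun x y => rfl
  let γ : Module.Dual ℝ (X.H (p, 0)) :=
    { toFun := fun x => sg p 0 * bg X (L ^ i * X.ω ^ j) (X.ω * (x : X.R)) y
      map_add' := fun x x' => by
        have := hH'.add (X.ω * (x : X.R)) (X.ω * (x' : X.R)) y
        rw [← this, Submodule.coe_add, mul_add]
      map_smul' := fun r x => by
        have := hH'.smul r (X.ω * (x : X.R)) y
        simp only [RingHom.id_apply, smul_eq_mul]
        rw [← this, ← mul_smul_comm]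
        rfl }
  obtain ⟨D, hD⟩ := exists_bound B (fun x y => (hH.restrict (X.H (p, 0))).symm x y)
    (fun x => (hL.nonneg (i := i) (j := j + 2) (by push_cast; omega) x.2).1) γ
    (fun x hx => by
      have h0 := (hL.nonneg (i := i) (j := j + 2) (by push_cast; omega) x.2).2 hx
      show sg p 0 * bg X (L ^ i * X.ω ^ j) (X.ω * (x : X.R)) y = 0
      rw [bg_mixed hL.mem hL.real _ x.2 h0, mul_zero])
  exact ⟨D, fun x hx => hD ⟨x, hx⟩⟩

/-- **The degenerate mixed Hodge-Riemann relation.** -/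
theorem upper (hL : Semipositive X L) {p : ℤ} {k : ℕ} (hk : p + k + 2 = n) (hp : 0 ≤ p)
    {y : X.R} (hy : y ∈ X.H (p + 1, 1)) (h0 : L ^ k * (X.ω * y) = 0) :
    0 ≤ sg p 0 * bf X L k y y := by
  by_contra hneg
  push Not at hneg
  -- the bounds
  have hD : ∀ j : ℕ, ∃ D : ℝ, (j = 0 → D = 0) ∧ (j ≤ k → ∀ x ∈ X.H (p, 0),
      2 * (sg p 0 * bg X (L ^ (k - j) * X.ω ^ j) (X.ω * x) y) -
        sg p 0 * bg X (L ^ (k - j) * X.ω ^ (j + 2)) x x ≤ D) := by
    intro j
    by_cases hj : j = 0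
    · subst hj
      refine ⟨0, fun _ => rfl, fun _ x hx => ?_⟩
      have e0 : L ^ k * (X.ω * X.bar y) = 0 := by
        have := congrArg X.bar h0
        rw [bar_pow hL.real, X.bar_mul, X.ω_bar, map_zero] at this
        exact this
      have e0' : L ^ k * (X.ω * X.dual y) = 0 := by
        rw [X.dual_of hy, mul_smul_comm, mul_smul_comm, h0, smul_zero]
      have e1 : gf X (L ^ k) (X.ω * x) y = 0 := by
        unfold gf
        rw [dual_mul X.ω_mem, neg_mul, X.central X.ω_mem (X.dual x), mul_assoc, ← mul_assoc X.ω,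
          X.central X.ω_mem (L ^ k), mul_assoc (L ^ k), e0, mul_zero, neg_zero, map_zero]
      have e2 : gf X (L ^ k) y (X.ω * x) = 0 := by
        unfold gf
        rw [X.bar_mul, X.ω_bar, ← mul_assoc, ← pow_central hL.mem, ← mul_assoc,
          mul_assoc (L ^ k), ← X.central X.ω_mem, e0', zero_mul, map_zero]
      have e3 : bg X (L ^ k) (X.ω * x) y = 0 := by
        unfold bg
        rw [e1, e2]
        simp
      have h1 := (hL.nonneg (i := k) (j := 2) (by push_cast; omega) hx).1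
      rw [Nat.sub_zero, pow_zero, mul_one, e3, zero_add]
      linarith
    · by_cases hjk : j ≤ k
      · obtain ⟨D, h⟩ := mixed_bound hL (p := p) (i := k - j) (j := j) (by omega) y
        exact ⟨D, fun h => absurd h hj, fun _ => h⟩
      · exact ⟨0, fun _ => rfl, fun h => absurd h hjk⟩
  choose D hD0 hD1 using hD
  -- the comparison function
  let φ : ℝ → ℝ := fun t => ∑ j ∈ Finset.range (k + 1),
    (k.choose j : ℝ) * t ^ j * (sg p 0 * bg X (L ^ (k - j) * X.ω ^ j) y y + D j)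
  have hφc : Continuous φ := by fun_prop
  have hφ0 : φ 0 < 0 := by
    have : φ 0 = sg p 0 * bf X L k y y := by
      show ∑ j ∈ Finset.range (k + 1), (k.choose j : ℝ) * (0 : ℝ) ^ j *
        (sg p 0 * bg X (L ^ (k - j) * X.ω ^ j) y y + D j) = _
      rw [Finset.sum_eq_single 0]
      · rw [hD0 0 rfl, bf_eq]
        simp
      · intro j _ hj
        rw [zero_pow hj]
        ring
      · intro h
        exact absurd (Finset.mem_range.2 (Nat.succ_pos k)) h
    rw [this]
    exact hneg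
  obtain ⟨t, hφt, ht⟩ : ∃ t : ℝ, φ t < 0 ∧ 0 < t := by
    have h1 : ∀ᶠ t in 𝓝 (0 : ℝ), φ t < 0 := hφc.continuousAt.eventually_lt_const hφ0
    have h2 : ∀ᶠ t in 𝓝[>] (0 : ℝ), φ t < 0 := h1.filter_mono nhdsWithin_le_nhds
    obtain ⟨t, h3, h4⟩ := (h2.and self_mem_nhdsWithin).exists
    exact ⟨t, h3, h4⟩
  set w : X.R := L + (t : ℂ) • X.ω with hw
  have hH := isHerm (X := X) (w := w) (k := k) (sg p 0)
  have hc : ∀ j : ℕ, 0 ≤ (k.choose j : ℝ) * t ^ j := fun j => by positivity
  -- the form on multiples of `ω`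
  have q1 : ∀ x : X.R, sg p 0 * bf X w k (X.ω * x) (X.ω * x) = -∑ j ∈ Finset.range (k + 1),
      (k.choose j : ℝ) * t ^ j * (sg p 0 * bg X (L ^ (k - j) * X.ω ^ (j + 2)) x x) := by
    intro x
    rw [hw, bf_expand, Finset.mul_sum, ← Finset.sum_neg_distrib]
    refine Finset.sum_congr rfl fun j _ => ?_
    rw [bg_omega, mul_assoc (L ^ (k - j)), ← pow_add]
    ring
  have q1neg : ∀ x ∈ X.H (p, 0), x ≠ 0 → sg p 0 * bf X w k (X.ω * x) (X.ω * x) < 0 := by
    intro x hx hx0
    rw [q1, neg_lt_zero]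
    refine Finset.sum_pos' (fun j hj => ?_) ⟨k, Finset.self_mem_range_succ k, ?_⟩
    · have := Finset.mem_range.1 hj
      exact mul_nonneg (hc j) (hL.nonneg (i := k - j) (j := j + 2) (by push_cast; omega) hx).1
    · have h1 := hL.nonneg (i := k - k) (j := k + 2) (by push_cast; omega) hx
      have h2 : 0 < sg p 0 * bg X (L ^ (k - k) * X.ω ^ (k + 2)) x x := by
        refine lt_of_le_of_ne h1.1 fun h => hx0 ?_
        have := h1.2 h.symm
        rwa [Nat.sub_self, pow_zero, one_mul] at this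
      have h3 : (0 : ℝ) < (k.choose k : ℝ) * t ^ k := by
        rw [Nat.choose_self]
        positivity
      exact mul_pos h3 h2
  have q2 : ∀ x ∈ X.H (p, 0), sg p 0 * bf X w k (X.ω * x + y) (X.ω * x + y) < 0 := by
    intro x hx
    have e1 := hH.add (X.ω * x) y (X.ω * x + y)
    have e2 := hH.add_right (X.ω * x) (X.ω * x) y
    have e3 := hH.add_right y (X.ω * x) y
    have e4 := hH.symm y (X.ω * x)
    have e5 : sg p 0 * bf X w k (X.ω * x) y = ∑ j ∈ Finset.range (k + 1),
        (k.choose j : ℝ) * t ^ j * (sg p 0 * bg X (L ^ (k - j) * X.ω ^ j) (X.ω * x) y) := by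
      rw [hw, bf_expand, Finset.mul_sum]
      exact Finset.sum_congr rfl fun j _ => by ring
    have e6 : sg p 0 * bf X w k y y = ∑ j ∈ Finset.range (k + 1),
        (k.choose j : ℝ) * t ^ j * (sg p 0 * bg X (L ^ (k - j) * X.ω ^ j) y y) := by
      rw [hw, bf_expand, Finset.mul_sum]
      exact Finset.sum_congr rfl fun j _ => by ring
    have e7 : sg p 0 * bf X w k (X.ω * x + y) (X.ω * x + y) ≤ φ t := by
      rw [e1, e2, e3, e4, q1, e5, e6]
      show _ ≤ ∑ j ∈ Finset.range (k + 1),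
        (k.choose j : ℝ) * t ^ j * (sg p 0 * bg X (L ^ (k - j) * X.ω ^ j) y y + D j)
      rw [← Finset.sum_neg_distrib, ← Finset.sum_add_distrib, ← Finset.sum_add_distrib,
        ← Finset.sum_add_distrib]
      refine Finset.sum_le_sum fun j hj => ?_
      have hj' : j ≤ k := Nat.lt_succ_iff.1 (Finset.mem_range.1 hj)
      have h1 := mul_le_mul_of_nonneg_left (hD1 j hj' x hx) (hc j)
      nlinarith [h1]
    linarith
  -- the negative definite space
  have hωmem : ∀ x ∈ X.H (p, 0), X.ω * x ∈ X.H (p + 1, 1) := by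
    intro x hx
    have := X.mul_mem X.ω_mem hx
    have e : ((1 + p, 1 + 0) : ℤ × ℤ) = (p + 1, 1) := by ext <;> simp [add_comm]
    rwa [e] at this
  let T : (X.H (p, 0) × ℂ) →ₗ[ℂ] X.R :=
    ((ml X X.ω).comp ((X.H (p, 0)).subtype)).coprod (LinearMap.toSpanSingleton ℂ X.R y)
  have hT : ∀ z : X.H (p, 0) × ℂ, T z = X.ω * (z.1 : X.R) + z.2 • y := fun z => rfl
  have hTneg : ∀ z : X.H (p, 0) × ℂ, z ≠ 0 → sg p 0 * bf X w k (T z) (T z) < 0 := by
    rintro ⟨x, c⟩ hz
    rw [hT]
    by_cases hc0 : c = 0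
    · subst hc0
      have hx0 : (x : X.R) ≠ 0 := by
        intro h
        apply hz
        have : x = 0 := Subtype.ext h
        rw [this]
        rfl
      simp only [zero_smul, add_zero]
      exact q1neg _ x.2 hx0
    · have e : X.ω * (x : X.R) + c • y = c • (X.ω * (c⁻¹ • (x : X.R)) + y) := by
        rw [smul_add, mul_smul_comm, smul_smul, mul_inv_cancel₀ hc0, one_smul]
      simp only
      rw [e]
      have h1 := hH.smul_self c (X.ω * (c⁻¹ • (x : X.R)) + y)
      rw [h1]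
      have h2 : 0 < Complex.normSq c := Complex.normSq_pos.2 hc0
      have h3 := q2 _ (Submodule.smul_mem _ c⁻¹ x.2)
      exact mul_neg_of_pos_of_neg h2 h3
  have hTinj : Function.Injective T := by
    rw [injective_iff_map_eq_zero]
    intro z hz
    by_contra hz0
    have h1 := hTneg z hz0
    rw [hz, hH.zero_left] at h1
    exact lt_irrefl _ h1
  have hdim : finrank ℂ (LinearMap.range T) = X.h p 0 + 1 := by
    rw [LinearMap.finrank_range_of_inj hTinj, Module.finrank_prod, Module.finrank_self]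
    rfl
  obtain ⟨r, hr⟩ : ∃ r : ℕ, p < r := ⟨p.toNat + 1, by
    push_cast
    have := Int.self_le_toNat p
    omega⟩
  obtain ⟨M, hM, hM2, hM3⟩ := kahler_pos (hL.nef t ht) (k := k) (p := p + 1) (q := 1)
    (r := r + 1) (by omega) (by push_cast; omega)
  have hsg : sg (p + 1) 1 = sg p 0 := by
    have := sg_pred (p + 1) 1
    rw [add_sub_cancel_right, sub_self] at this
    exact this.symm
  have hdisj : LinearMap.range T ⊓ M = ⊥ := by
    rw [eq_bot_iff]
    rintro x ⟨⟨z, rfl⟩, hx2⟩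
    rw [Submodule.mem_bot]
    by_contra hx0
    have hz0 : z ≠ 0 := by
      rintro rfl
      exact hx0 (map_zero T)
    have h1 := hTneg z hz0
    have h2 := hM2 _ hx2 hx0
    rw [hsg] at h2
    linarith
  have hrange : LinearMap.range T ≤ X.H (p + 1, 1) := by
    rintro _ ⟨z, rfl⟩
    rw [hT]
    exact Submodule.add_mem _ (hωmem _ z.1.2) (Submodule.smul_mem _ _ hy)
  have h4 := Submodule.finrank_sup_add_finrank_inf_eq (LinearMap.range T) M
  rw [hdisj, finrank_bot, add_zero, hdim] at h4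
  have h5 := Submodule.finrank_mono (sup_le hrange hM)
  have hA : X.A (r + 1) (p + 1) 1 = X.h (p + 1) 1 - X.A r p 0 := by
    show (X.h (p + 1) 1 : ℤ) - X.A r (p + 1 - 1) (1 - 1) = _
    rw [add_sub_cancel_right, sub_self]
  obtain ⟨r', hr'⟩ : ∃ r', r = r' + 1 := ⟨r - 1, by omega⟩
  have hA2 : X.A r p 0 = X.h p 0 := by
    rw [hr']
    show (X.h p 0 : ℤ) - X.A r' (p - 1) (0 - 1) = _
    rw [A_neg X _ _ _ (by norm_num), sub_zero]
  have h6 : finrank ℂ (X.H (p + 1, 1)) = X.h (p + 1) 1 := rfl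
  rw [hA, hA2] at hM3
  omega

end Pool.Agent.R929.DK
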