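import Pool.Agent.R929.DH.Ineq
import Pool.Agent.R929.DH.Main
import Pool.Agent.R929.DK.Upper

/-!
# The rank of `L ^ (n - p - 2)` on holomorphic `p`-forms is a derived invariant
-/

open scoped ComplexConjugate Topology
open Module

namespace Pool.Agent.R929.DK

open Pool.Agent.W539.DI Pool.Agent.R929.DH

variable {n : ℕ} {X : KRing n} {L : X.R}

/-- Conjugate subspaces have the same dimension. -/
theorem finrank_bar {A B : Submodule ℂ X.R} (hA : ∀ x ∈ A, X.bar x ∈ B)
    (hB : ∀ x ∈ B, X.bar x ∈ A) : finrank ℂ A = finrank ℂ B := by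
  let f : A →ₛₗ[starRingEnd ℂ] B :=
    { toFun := fun x => ⟨X.bar x, hA _ x.2⟩
      map_add' := fun x y => by ext; simp
      map_smul' := fun a x => by ext; simp [LinearMap.map_smulₛₗ] }
  let g : B →ₛₗ[starRingEnd ℂ] A :=
    { toFun := fun x => ⟨X.bar x, hB _ x.2⟩
      map_add' := fun x y => by ext; simp
      map_smul' := fun a x => by ext; simp [LinearMap.map_smulₛₗ] }
  let e : A ≃ₛₗ[starRingEnd ℂ] B :=
    { f with
      invFun := g
      left_inv := fun x => Subtype.ext (X.bar_bar x)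
      right_inv := fun x => Subtype.ext (X.bar_bar x) }
  have h1 : finrank ℝ A = finrank ℝ B := by
    refine LinearEquiv.finrank_eq
      { toFun := fun x => e x
        map_add' := fun x y => map_add e x y
        map_smul' := fun r x => ?_
        invFun := fun x => e.symm x
        left_inv := fun x => e.symm_apply_apply x
        right_inv := fun x => e.apply_symm_apply x }
    have := e.map_smulₛₗ (r : ℂ) x
    rw [Complex.conj_ofReal] at this
    simpa [Complex.coe_smul] using this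
  rw [finrank_real_of_complex, finrank_real_of_complex] at h1
  omega

/-- The dimension of the orthogonal complement. -/
theorem exists_perp (V Z : Submodule ℂ X.R) (w : X.R) (N : Submodule ℂ X.R) (hN : N ≤ Z)
    (hN2 : ∀ z ∈ Z, z ∈ N ↔ ∀ x ∈ V, X.tr (X.dual x * (w * z)) = 0) :
    ∃ K : Submodule ℂ X.R, K ≤ V ∧ finrank ℂ K + finrank ℂ Z = finrank ℂ V + finrank ℂ N ∧
      ∀ x ∈ V, x ∈ K ↔ ∀ z ∈ Z, X.tr (X.dual x * (w * z)) = 0 := by
  let Θ : Z →ₗ[ℂ] Module.Dual ℂ V :=
    LinearMap.mk₂ ℂ (fun (z : Z) (x : V) => X.tr (X.dual (x : X.R) * (w * (z : X.R))))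
      (fun z z' x => by
        simp only [Submodule.coe_add, mul_add, map_add])
      (fun c z x => by
        simp only [Submodule.coe_smul, mul_smul_comm, map_smul])
      (fun z x x' => by
        simp only [Submodule.coe_add, add_mul, map_add])
      (fun c z x => by
        simp only [Submodule.coe_smul, smul_mul_assoc, map_smul])
  have hΘ : ∀ z x, Θ z x = X.tr (X.dual (x : X.R) * (w * (z : X.R))) := fun z x => rfl
  have hker : finrank ℂ (LinearMap.ker Θ) = finrank ℂ N := by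
    have e : (LinearMap.ker Θ).map Z.subtype = N := by
      ext z
      constructor
      · rintro ⟨z, hz, rfl⟩
        refine (hN2 _ z.2).2 fun x hx => ?_
        have := congrArg (fun f => f ⟨x, hx⟩) (LinearMap.mem_ker.1 hz)
        exact this
      · intro hz
        refine ⟨⟨z, hN hz⟩, ?_, rfl⟩
        rw [SetLike.mem_coe, LinearMap.mem_ker]
        ext x
        exact (hN2 z (hN hz)).1 hz x x.2
    rw [← e, Submodule.finrank_map_subtype_eq]
  have h1 := Subspace.finrank_add_finrank_dualCoannihilator_eq (LinearMap.range Θ)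
  have h2 := LinearMap.finrank_range_add_finrank_ker Θ
  rw [hker] at h2
  refine ⟨(LinearMap.range Θ).dualCoannihilator.map V.subtype, Submodule.map_subtype_le V _,
    ?_, ?_⟩
  · rw [Submodule.finrank_map_subtype_eq]
    omega
  · intro x hx
    constructor
    · rintro ⟨x, hx', rfl⟩ z hz
      rw [SetLike.mem_coe, Submodule.mem_dualCoannihilator] at hx'
      exact hx' _ ⟨⟨z, hz⟩, rfl⟩
    · intro h
      refine ⟨⟨x, hx⟩, ?_, rfl⟩
      rw [SetLike.mem_coe, Submodule.mem_dualCoannihilator]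
      rintro _ ⟨z, rfl⟩
      rw [hΘ]
      exact h z z.2

/-- The classes of type `(p, 0)` which are killed by `L ^ k`. -/
noncomputable def K₀ (X : KRing n) (L : X.R) (p : ℤ) (k : ℕ) : Submodule ℂ X.R :=
  X.H (p, 0) ⊓ LinearMap.ker (ml X (L ^ k))

/-- The classes of type `(0, p)` which are killed by `L ^ k`. -/
noncomputable def K₁ (X : KRing n) (L : X.R) (p : ℤ) (k : ℕ) : Submodule ℂ X.R :=
  X.H (0, p) ⊓ LinearMap.ker (ml X (L ^ k))

theorem mem_K₀ {p : ℤ} {k : ℕ} {x : X.R} : x ∈ K₀ X L p k ↔ x ∈ X.H (p, 0) ∧ L ^ k * x = 0 :=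
  Iff.rfl

theorem mem_K₁ {p : ℤ} {k : ℕ} {x : X.R} : x ∈ K₁ X L p k ↔ x ∈ X.H (0, p) ∧ L ^ k * x = 0 :=
  Iff.rfl

theorem finrank_K (hb : X.bar L = L) (p : ℤ) (k : ℕ) :
    finrank ℂ (K₀ X L p k) = finrank ℂ (K₁ X L p k) := by
  refine finrank_bar (fun x hx => ?_) (fun x hx => ?_)
  · rw [mem_K₀] at hx
    exact mem_K₁.2 ⟨X.bar_mem _ _ _ hx.1, by rw [← bar_pow hb, hx.2, map_zero]⟩
  · rw [mem_K₁] at hx
    exact mem_K₀.2 ⟨X.bar_mem _ _ _ hx.1, by rw [← bar_pow hb, hx.2, map_zero]⟩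

theorem finrank_K_le (X : KRing n) (L : X.R) (p : ℤ) (k : ℕ) :
    finrank ℂ (K₀ X L p k) ≤ X.h p 0 := Submodule.finrank_mono inf_le_left

/-- The part of type `(p + 1, 1)` on which the form is nonnegative. -/
theorem exists_P (hL : Semipositive X L) {p : ℤ} {k : ℕ} (hk : p + k + 2 = n) (hp : 0 ≤ p) :
    ∃ P : Submodule ℂ X.R, P ≤ X.H (p + 1, 1) ∧
      finrank ℂ P + X.h p 0 = X.h (p + 1) 1 + finrank ℂ (K₀ X L p k) ∧
      ∀ y ∈ P, 0 ≤ sg p 0 * bf X L k y y := by
  obtain ⟨P, hP, hP2, hP3⟩ := exists_perp (X := X) (X.H (p + 1, 1)) (X.H (0, p))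
    (L ^ k * X.ω) (K₁ X L p k) inf_le_left (by
      intro z hz
      constructor
      · intro h x _
        rw [mem_K₁] at h
        rw [← X.central X.ω_mem (L ^ k), mul_assoc, h.2, mul_zero, mul_zero, map_zero]
      · intro h
        have h1 : L ^ k * X.ω * z = 0 := by
          have hmem : L ^ k * X.ω * z ∈ X.H (0 + 1 + k, p + 1 + k) := by
            rw [mul_assoc]
            have h2 := X.pow_mul_mem hL.mem k (X.mul_mem X.ω_mem hz)
            have e : ((0 + 1 + (k : ℤ), p + 1 + (k : ℤ)) : ℤ × ℤ) = (1 + 0 + (k : ℤ), 1 + p + (k : ℤ)) := by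
              ext <;> simp [add_comm]
            rw [e]
            exact h2
          refine X.pd _ _ _ hmem fun y hy => ?_
          have e : ((n - (0 + 1 + k), n - (p + 1 + k)) : ℤ × ℤ) = (p + 1, 1) := by
            ext <;> simp <;> omega
          rw [e] at hy
          have h3 := h y hy
          rw [X.dual_of hy, smul_mul_assoc, map_smul, smul_eq_mul] at h3
          have h4 := (mul_eq_zero.mp h3).resolve_left (zpow_ne_zero _ Complex.I_ne_zero)
          rw [X.comm _ _ _ _ _ _ hmem hy, map_smul, h4, smul_zero]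
        -- pass to the conjugate class
        have hz' : X.bar z ∈ X.H (p, 0) := X.bar_mem _ _ _ hz
        have h2 := (hL.nonneg (i := k) (j := 2) (by push_cast; omega) hz')
        have h3 : sg p 0 * bg X (L ^ k * X.ω ^ 2) (X.bar z) (X.bar z) = 0 := by
          have h4 : gf X (L ^ k * X.ω ^ 2) (X.bar z) (X.bar z) = 0 := by
            unfold gf
            have : L ^ k * X.ω ^ 2 * X.bar (X.bar z) = 0 := by
              rw [X.bar_bar, pow_two, ← mul_assoc, mul_assoc (L ^ k * X.ω), X.central X.ω_mem z,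
                ← mul_assoc, h1, zero_mul]
            rw [this, mul_zero, map_zero]
          rw [bg_self, h4]
          simp
        have h5 := h2.2 h3
        rw [mem_K₁]
        refine ⟨hz, ?_⟩
        have h6 := congrArg X.bar h5
        rw [bar_pow hL.real, X.bar_bar, map_zero] at h6
        exact h6)
  refine ⟨P, hP, ?_, ?_⟩
  · rw [finrank_K hL.real]
    have e1 : finrank ℂ (X.H (0, p)) = X.h p 0 := X.h_swap 0 p
    rw [e1] at hP2
    exact hP2
  · intro y hy
    have h1 := (hP3 y (hP hy)).1 hy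
    refine upper hL hk hp (hP hy) ?_
    have hmem : L ^ k * (X.ω * y) ∈ X.H (p + 2 + k, 2 + k) := by
      have h2 := X.pow_mul_mem hL.mem k (X.mul_mem X.ω_mem (hP hy))
      have e : ((p + 2 + (k : ℤ), 2 + (k : ℤ)) : ℤ × ℤ) =
          (1 + (p + 1) + (k : ℤ), 1 + 1 + (k : ℤ)) := by
        ext <;> simp <;> ring
      rw [e]
      exact h2
    refine X.pd _ _ _ hmem fun z hz => ?_
    have e : ((n - (p + 2 + k), n - (2 + k)) : ℤ × ℤ) = (0, p) := by
      ext <;> simp <;> omega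
    rw [e] at hz
    have h3 := h1 z hz
    rw [X.dual_of (hP hy), smul_mul_assoc, map_smul, smul_eq_mul] at h3
    have h4 := (mul_eq_zero.mp h3).resolve_left (zpow_ne_zero _ Complex.I_ne_zero)
    have e2 : L ^ k * (X.ω * y) * z = y * (L ^ k * X.ω * z) := by
      rw [X.central X.ω_mem y, pow_central hL.mem, mul_assoc, mul_assoc y, ← mul_assoc X.ω,
        X.central X.ω_mem (L ^ k), mul_assoc]
    rw [e2]
    exact h4

/-- The vectors in the upper part which are orthogonal to the holomorphic forms. -/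
theorem exists_U (hL : Semipositive X L) {p : ℤ} {k : ℕ} (hk : p + k + 2 = n) (hp : 0 ≤ p) :
    ∃ K : Submodule ℂ X.R,
      finrank ℂ K + X.h p 0 = hs X (p + 1) 1 (sp n) + finrank ℂ (K₀ X L p k) ∧
      ∀ x ∈ X.F (p + 1) 1 (sp n), (∀ y ∈ X.H (p, 0), hf X L k x y = 0) → x ∈ K := by
  obtain ⟨K, hK, hK2, hK3⟩ := exists_perp (X := X) (X.F (p + 1) 1 (sp n)) (X.H (0, p))
    (L ^ k) (K₁ X L p k) inf_le_left (by
      intro z hz
      constructor
      · intro h x _
        rw [mem_K₁] at h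
        rw [h.2, mul_zero, map_zero]
      · intro h
        rw [mem_K₁]
        refine ⟨hz, ?_⟩
        have hmem : L ^ k * z ∈ X.H (0 + k, p + k) := X.pow_mul_mem hL.mem k hz
        refine X.pd _ _ _ hmem fun y hy => ?_
        have e : ((n - (0 + k), n - (p + k)) : ℤ × ℤ) = (p + 1 + 1, 1 + 1) := by
          ext <;> simp <;> omega
        rw [e] at hy
        have hyF : y ∈ X.F (p + 1) 1 (sp n) := X.mem_F (mem_sp.2 ⟨le_refl _, by omega⟩) hy
        have h3 := h y hyF
        rw [X.dual_of hy, smul_mul_assoc, map_smul, smul_eq_mul] at h3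
        have h4 := (mul_eq_zero.mp h3).resolve_left (zpow_ne_zero _ Complex.I_ne_zero)
        rw [X.comm _ _ _ _ _ _ hmem hy, map_smul, h4, smul_zero])
  refine ⟨K, ?_, ?_⟩
  · rw [finrank_K hL.real]
    have e1 : finrank ℂ (X.H (0, p)) = X.h p 0 := X.h_swap 0 p
    rw [e1, X.finrank_F] at hK2
    exact hK2
  · intro x hx h
    refine (hK3 x hx).2 fun z hz => ?_
    have h1 := h (X.bar z) (X.bar_mem _ _ _ hz)
    unfold hf at h1
    rwa [X.bar_bar] at h1

/-- The part of type `(p + 1, 1)` on which the form is negative definite. -/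
theorem exists_N (hL : Semipositive X L) {p : ℤ} {k : ℕ} (hk : p + k + 2 = n) (hp : 0 ≤ p) :
    ∃ N : Submodule ℂ X.R, N ≤ X.H (p + 1, 1) ∧
      finrank ℂ N + finrank ℂ (K₀ X L p k) = X.h p 0 ∧
      ∀ y ∈ N, y ≠ 0 → sg p 0 * bf X L k y y < 0 := by
  obtain ⟨C, hC⟩ := Submodule.exists_isCompl (K₀ X L p k)
  let W : Submodule ℂ X.R := X.H (p, 0) ⊓ C
  have hKH : K₀ X L p k ≤ X.H (p, 0) := inf_le_left
  have hPW : K₀ X L p k ⊔ W = X.H (p, 0) := by
    have : K₀ X L p k ⊔ C ⊓ X.H (p, 0) = (K₀ X L p k ⊔ C) ⊓ X.H (p, 0) :=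
      (sup_inf_assoc_of_le C hKH).symm
    show K₀ X L p k ⊔ X.H (p, 0) ⊓ C = X.H (p, 0)
    rw [inf_comm (X.H (p, 0)), this, hC.sup_eq_top, top_inf_eq]
  have hPWd : K₀ X L p k ⊓ W = ⊥ := by
    rw [eq_bot_iff]
    rintro x ⟨hx1, -, hx2⟩
    have : x ∈ K₀ X L p k ⊓ C := ⟨hx1, hx2⟩
    rwa [hC.inf_eq_bot] at this
  have hdim : finrank ℂ (K₀ X L p k) + finrank ℂ W = X.h p 0 := by
    have h1 := Submodule.finrank_sup_add_finrank_inf_eq (K₀ X L p k) W
    rw [hPW, hPWd, finrank_bot, add_zero] at h1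
    exact h1.symm
  have hneg : ∀ x ∈ W, x ≠ 0 → sg p 0 * bf X L k (X.ω * x) (X.ω * x) < 0 := by
    intro x hx hx0
    have h1 := hL.nonneg (i := k) (j := 2) (by push_cast; omega) hx.1
    have h2 : sg p 0 * bg X (L ^ k * X.ω ^ 2) x x ≠ 0 := by
      intro h
      have h3 : x ∈ K₀ X L p k ⊓ W := ⟨mem_K₀.2 ⟨hx.1, h1.2 h⟩, hx⟩
      rw [hPWd, Submodule.mem_bot] at h3
      exact hx0 h3
    have h3 := lt_of_le_of_ne h1.1 (Ne.symm h2)
    rw [bf_eq, bg_omega]
    linarith
  have hH := isHerm (X := X) (w := L) (k := k) (sg p 0)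
  refine ⟨Submodule.map (ml X X.ω) W, ?_, ?_, ?_⟩
  · rintro _ ⟨x, hx, rfl⟩
    have := X.mul_mem X.ω_mem hx.1
    have e : ((1 + p, 1 + 0) : ℤ × ℤ) = (p + 1, 1) := by ext <;> simp [add_comm]
    rw [e] at this
    exact this
  · rw [finrank_map_of_inj _ _ fun x hx h0 => ?_]
    · omega
    · by_contra hx0
      have h1 := hneg x hx hx0
      have h2 : X.ω * x = 0 := h0
      rw [h2, hH.zero_left] at h1
      exact lt_irrefl _ h1
  · rintro _ ⟨x, hx, rfl⟩ h0
    refine hneg x hx ?_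
    rintro rfl
    exact h0 (map_zero _)

variable {Y : KRing n} {Φ : FM X Y} {L' : Y.R}

theorem total_dim (Y : KRing n) {p : ℤ} (hp : 0 ≤ p) :
    finrank ℂ (⨆ k : ℤ, Y.H (p + 1 + k, 1 + k) : Submodule ℂ Y.R) =
      Y.h p 0 + (Y.h (p + 1) 1 + hs Y (p + 1) 1 (sp n)) := by
  have h1 := Y.total_all (p + 1) 1 ({-1} ∪ ({0} ∪ sp n)) (by
    intro k hk
    rw [Finset.mem_union, Finset.mem_union, Finset.mem_singleton, Finset.mem_singleton,
      mem_sp] at hk
    omega)
  rw [h1, Finset.sum_union, Finset.sum_union, Finset.sum_singleton, Finset.sum_singleton,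
    add_zero, add_zero, show p + 1 + -1 = p by ring, show (1 : ℤ) + -1 = 0 by norm_num]
  · rfl
  · rw [Finset.disjoint_left]
    intro k hk hk2
    rw [Finset.mem_singleton] at hk
    rw [mem_sp] at hk2
    omega
  · rw [Finset.disjoint_left]
    intro k hk hk2
    rw [Finset.mem_singleton] at hk
    rw [Finset.mem_union, Finset.mem_singleton, mem_sp] at hk2
    omega

theorem sup_K {p : ℤ} {P K : Submodule ℂ X.R} (hP : P ≤ X.H (p + 1, 1)) (hK : K ≤ X.H (p, 0)) :
    finrank ℂ (X.F (p + 1) 1 (sp n) ⊔ P ⊔ K : Submodule ℂ X.R) =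
      hs X (p + 1) 1 (sp n) + finrank ℂ P + finrank ℂ K := by
  have hd : Disjoint (X.H (p + 1 + (-1), 1 + (-1))) (X.F (p + 1) 1 ({0} ∪ sp n)) := by
    have := (X.indep (p + 1) 1).disjoint_biSup (x := -1) (y := (({0} ∪ sp n : Finset ℤ) : Set ℤ))
      (by
        intro h
        rw [Finset.mem_coe, Finset.mem_union, Finset.mem_singleton, mem_sp] at h
        omega)
    exact this
  have e : ((p + 1 + (-1), 1 + (-1)) : ℤ × ℤ) = (p, 0) := by ext <;> simp
  rw [e] at hd
  have h1 : X.F (p + 1) 1 (sp n) ⊔ P ≤ X.F (p + 1) 1 ({0} ∪ sp n) := by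
    refine sup_le ?_ ?_
    · exact iSup₂_le fun k hk => fun x hx =>
        X.mem_F (Finset.mem_union_right _ hk) hx
    · intro x hx
      refine X.mem_F (k := 0) (Finset.mem_union_left _ (Finset.mem_singleton_self 0)) ?_
      rw [add_zero, add_zero]
      exact hP hx
  have h2 : (X.F (p + 1) 1 (sp n) ⊔ P) ⊓ K = ⊥ := (hd.mono hK h1).symm.eq_bot
  have h3 := Submodule.finrank_sup_add_finrank_inf_eq (X.F (p + 1) 1 (sp n) ⊔ P) K
  rw [h2, finrank_bot, add_zero, finrank_sup' hP] at h3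
  exact h3

/-- **The basic inequality.** -/
theorem rank_le (hX : Semipositive X L) (hY : Semipositive Y L') (hc : Intertwines Φ X.c Y.c)
    (hΦ : Intertwines Φ L L') {p : ℤ} {k : ℕ} (hk : p + k + 2 = n) (hp : 0 ≤ p) :
    Y.h p 0 + finrank ℂ (K₀ X L p k) ≤ X.h p 0 + finrank ℂ (K₀ Y L' p k) := by
  classical
  obtain ⟨P, hP, hP2, hP3⟩ := exists_P hX hk hp
  obtain ⟨K, hK, hK2⟩ := exists_U hY hk hp
  obtain ⟨N, hN, hN2, hN3⟩ := exists_N hY hk hp
  have hab : (p + 1 : ℤ) + 1 + k = n := by omega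
  have hH := isHerm (X := Y) (w := L') (k := k) (sg p 0)
  have hKH : K₀ X L p k ≤ X.H (p, 0) := inf_le_left
  have hlow : ∀ (Z : KRing n), Z.H (p, 0) ≤ ⨆ k : ℤ, Z.H (p + 1 + k, 1 + k) := by
    intro Z
    have h1 := le_iSup (fun k : ℤ => Z.H (p + 1 + k, 1 + k)) (-1)
    have e : ((p + 1 + (-1), 1 + (-1)) : ℤ × ℤ) = (p, 0) := by ext <;> simp
    simp only [e] at h1
    exact h1
  have h1 := semi_sub hH (⨆ k : ℤ, Y.H (p + 1 + k, 1 + k))
    (Submodule.map (Φ.φ : X.R →ₗ[ℂ] Y.R) (X.F (p + 1) 1 (sp n) ⊔ P ⊔ K₀ X L p k))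
    (Y.F (p + 1) 1 (sp n) ⊔ N) K
    (by
      rw [← Φ.hodge (p + 1) 1]
      exact Submodule.map_mono (sup_le (sup_le (F_le _ _ _) (hP.trans (H_le _ _)))
        (hKH.trans (hlow X))))
    (sup_le (F_le _ _ _) (hN.trans (H_le _ _)))
    (by
      rintro _ ⟨x, hx, rfl⟩
      obtain ⟨u, hu, v, hv, rfl⟩ := Submodule.mem_sup.1 hx
      obtain ⟨f, hf1, m, hm, rfl⟩ := Submodule.mem_sup.1 hu
      show 0 ≤ sg p 0 * bf Y L' k (Φ.φ (f + m + v)) (Φ.φ (f + m + v))
      rw [bf_iso hc hΦ]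
      have hv2 := mem_K₀.1 hv
      have e1 : ∀ z, hf X L k z v = 0 := by
        intro z
        unfold hf
        rw [← bar_pow hX.real, hv2.2, map_zero, mul_zero, map_zero]
      have e2 : ∀ z, hf X L k v z = 0 := by
        intro z
        rw [hf_hom hX.mem hv2.1, ← mul_assoc, hv2.2, zero_mul, map_zero, mul_zero]
      have e3 : bf X L k (f + m + v) (f + m + v) = bf X L k (f + m) (f + m) := by
        unfold bf
        simp only [hf_add_left, hf_add_right, e1, e2, add_zero]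
      rw [e3, (bf_sup hX.mem hab n hf1 (hP hm)).1]
      exact hP3 m hm)
    (by
      intro x hx
      obtain ⟨f, hf1, m, hm, rfl⟩ := Submodule.mem_sup.1 hx
      rw [(bf_sup hY.mem hab n hf1 (hN hm)).1]
      by_cases hm0 : m = 0
      · rw [hm0]
        exact le_of_eq (hH.zero_left 0)
      · exact (hN3 m hm hm0).le)
    (by
      intro x hx hxy
      obtain ⟨f, hf1, m, hm, rfl⟩ := Submodule.mem_sup.1 hx
      have hm0 : m = 0 := by
        by_contra hm0
        have h2 := hxy m (H_le _ _ (hN hm))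
        rw [(bf_sup hY.mem hab n hf1 (hN hm)).2.1] at h2
        have h3 := hN3 m hm hm0
        linarith
      rw [hm0, add_zero]
      have hyF : ∀ y ∈ Y.H (p, 0), y ∈ Y.F (p + 1) 1 (sm n) := by
        intro y hy
        refine Y.mem_F (k := -1) (mem_sm.2 ⟨le_refl _, by omega⟩) ?_
        have e : ((p + 1 + (-1), 1 + (-1)) : ℤ × ℤ) = (p, 0) := by ext <;> simp
        rw [e]
        exact hy
      have h4 : ∀ y ∈ Y.H (p, 0), (hf Y L' k f y).re = 0 := by
        intro y hy
        have h2 := hxy y (hlow Y hy)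
        rw [(bf_sup hY.mem hab n hf1 (hN hm)).2.2 y (hyF y hy)] at h2
        have h3 := (mul_eq_zero.mp h2).resolve_left (sg_ne p 0)
        unfold bf at h3
        rw [hf_F_conj hY.mem hY.real hab _ _ hf1 (hyF y hy), Complex.conj_re] at h3
        linarith
      refine hK2 f hf1 fun y hy => ?_
      have h5 := h4 (Complex.I • y) (Submodule.smul_mem _ _ hy)
      rw [hf_smul_right, Complex.conj_I] at h5
      refine Complex.ext (h4 y hy) ?_
      simp only [Complex.mul_re, Complex.neg_re, Complex.I_re, Complex.neg_im, Complex.I_im] at h5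
      simp only [Complex.zero_im]
      linarith)
  rw [LinearEquiv.finrank_map_eq, sup_K hP hKH, finrank_sup' hN, total_dim Y hp] at h1
  have hXY : X.h p 0 + (X.h (p + 1) 1 + hs X (p + 1) 1 (sp n)) =
      Y.h p 0 + (Y.h (p + 1) 1 + hs Y (p + 1) 1 (sp n)) := by
    rw [← total_dim X hp, ← total_dim Y hp, ← Φ.hodge (p + 1) 1]
    exact (LinearEquiv.finrank_map_eq Φ.φ _).symm
  omega

/-- **Main theorem**: the number of holomorphic `p`-forms modulo those which are killed by
`L ^ (n - p - 2)` is a derived invariant. -/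
theorem rank_eq (hX : Semipositive X L) (hY : Semipositive Y L') (hc : Intertwines Φ X.c Y.c)
    (hΦ : Intertwines Φ L L') {p : ℤ} {k : ℕ} (hk : p + k + 2 = n) (hp : 0 ≤ p) :
    X.h p 0 + finrank ℂ (K₀ Y L' p k) = Y.h p 0 + finrank ℂ (K₀ X L p k) :=
  le_antisymm (rank_le (Φ := symm Φ) hY hX hc.symm hΦ.symm hk hp)
    (rank_le hX hY hc hΦ hk hp)

end Pool.Agent.R929.DK
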